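import Mathlib

/-!
# The abstract inequality behind the log-concavity of chromatic polynomials

A family `P S q` (`S` a finite set of vertices, `q` real) satisfying the two colour class
recursions of chromatic polynomials of induced subgraphs.
-/

namespace Pool.Agent.Lib.MP_2c0ab4_co

open Finset

variable {V : Type} [DecidableEq V]

/-- The independent subsets of `S`. -/
def indep (G : SimpleGraph V) [DecidableRel G.Adj] (S : Finset V) : Finset (Finset V) :=
  S.powerset.filter (fun T => ∀ u ∈ T, ∀ v ∈ T, ¬ G.Adj u v)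

theorem mem_indep {G : SimpleGraph V} [DecidableRel G.Adj] {S T : Finset V} :
    T ∈ indep G S ↔ T ⊆ S ∧ ∀ u ∈ T, ∀ v ∈ T, ¬ G.Adj u v := by
  simp [indep]

theorem empty_mem_indep (G : SimpleGraph V) [DecidableRel G.Adj] (S : Finset V) :
    ∅ ∈ indep G S := by
  simp [mem_indep]

theorem singleton_mem_indep {G : SimpleGraph V} [DecidableRel G.Adj] {S : Finset V} {w : V}
    (hw : w ∈ S) : {w} ∈ indep G S := by
  rw [mem_indep]
  refine ⟨by simpa using hw, ?_⟩
  intro u hu v hv
  rw [mem_singleton] at hu hv
  subst hu; subst hv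
  exact G.loopless.irrefl _

/-- The two colour class recursions. -/
structure ChromFam (G : SimpleGraph V) [DecidableRel G.Adj] (P : Finset V → ℝ → ℝ) : Prop where
  empty : ∀ q, P ∅ q = 1
  classOf : ∀ (S : Finset V) (w : V) (q : ℝ), w ∈ S →
    P S q = q * ∑ T ∈ (indep G S).filter (fun T => w ∈ T), P (S \ T) (q - 1)
  classSum : ∀ (S : Finset V) (q : ℝ), P S q = ∑ T ∈ indep G S, P (S \ T) (q - 1)

namespace ChromFam

variable {G : SimpleGraph V} [DecidableRel G.Adj] {P : Finset V → ℝ → ℝ}

theorem card_sdiff_lt {S T : Finset V} {w : V} (hwS : w ∈ S) (hwT : w ∈ T) :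
    (S \ T).card < S.card := by
  apply Finset.card_lt_card
  rw [Finset.ssubset_iff_of_subset Finset.sdiff_subset]
  exact ⟨w, hwS, by simp [hwT]⟩

theorem nonneg (h : ChromFam G P) : ∀ (n : ℕ) (S : Finset V) (q : ℝ), S.card = n →
    (S.card : ℝ) ≤ q + 1 → 0 ≤ P S q := by
  intro n
  induction n using Nat.strong_induction_on with
  | _ n ih =>
    intro S q hS hq
    rcases S.eq_empty_or_nonempty with h0 | ⟨w, hw⟩
    · subst h0; rw [h.empty]; exact zero_le_one
    · rw [h.classOf S w q hw]
      have hc : 1 ≤ S.card := Finset.card_pos.2 ⟨w, hw⟩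
      have hc' : (1 : ℝ) ≤ (S.card : ℝ) := by exact_mod_cast hc
      apply mul_nonneg (by linarith)
      apply Finset.sum_nonneg
      intro T hT
      rw [Finset.mem_filter] at hT
      have hlt := card_sdiff_lt hw hT.2
      apply ih _ (hS ▸ hlt) _ _ rfl
      have : ((S \ T).card : ℝ) + 1 ≤ (S.card : ℝ) := by exact_mod_cast hlt
      linarith

theorem pos (h : ChromFam G P) : ∀ (n : ℕ) (S : Finset V) (q : ℝ), S.card = n →
    (S.card : ℝ) ≤ q → 0 < P S q := by
  intro n
  induction n using Nat.strong_induction_on with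
  | _ n ih =>
    intro S q hS hq
    rcases S.eq_empty_or_nonempty with h0 | ⟨w, hw⟩
    · subst h0; rw [h.empty]; exact zero_lt_one
    · rw [h.classOf S w q hw]
      have hc : 1 ≤ S.card := Finset.card_pos.2 ⟨w, hw⟩
      have hc' : (1 : ℝ) ≤ (S.card : ℝ) := by exact_mod_cast hc
      apply mul_pos (by linarith)
      have hlt0 : ∀ T ∈ (indep G S).filter (fun T => w ∈ T),
          ((S \ T).card : ℝ) + 1 ≤ (S.card : ℝ) := by
        intro T hT
        rw [Finset.mem_filter] at hT
        exact_mod_cast card_sdiff_lt hw hT.2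
      apply Finset.sum_pos
      · intro T hT
        have h1 := hlt0 T hT
        rw [Finset.mem_filter] at hT
        exact ih _ (hS ▸ card_sdiff_lt hw hT.2) _ _ rfl (by linarith)
      · refine ⟨{w}, ?_⟩
        rw [Finset.mem_filter]
        exact ⟨singleton_mem_indep hw, Finset.mem_singleton_self w⟩

theorem pos' (h : ChromFam G P) (S : Finset V) (q : ℝ) (hq : (S.card : ℝ) ≤ q) : 0 < P S q :=
  h.pos _ S q rfl hq

theorem nonneg' (h : ChromFam G P) (S : Finset V) (q : ℝ) (hq : (S.card : ℝ) ≤ q + 1) :
    0 ≤ P S q :=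
  h.nonneg _ S q rfl hq

/-- The class of `u` in `S = insert u H`: its other members form an independent subset of `H`
avoiding the neighbours of `u`. -/
theorem classOf_insert (h : ChromFam G P) (H : Finset V) (u : V) (hu : u ∉ H) (q : ℝ) :
    P (insert u H) q = q * ∑ T ∈ (indep G H).filter (fun T => ∀ v ∈ T, ¬ G.Adj u v),
      P (H \ T) (q - 1) := by
  rw [h.classOf (insert u H) u q (Finset.mem_insert_self u H)]
  congr 1
  symm
  apply Finset.sum_nbij' (fun T => insert u T) (fun T => T.erase u)
  · intro T hT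
    rw [Finset.mem_filter, mem_indep] at hT
    obtain ⟨⟨h1, h2⟩, h3⟩ := hT
    rw [Finset.mem_filter, mem_indep]
    refine ⟨⟨Finset.insert_subset_insert u h1, ?_⟩, Finset.mem_insert_self u T⟩
    intro a ha b hb
    rw [Finset.mem_insert] at ha hb
    rcases ha with rfl | ha
    · rcases hb with rfl | hb
      · exact G.loopless.irrefl _
      · exact h3 b hb
    · rcases hb with rfl | hb
      · intro hab; exact h3 a ha hab.symm
      · exact h2 a ha b hb
  · intro T hT
    rw [Finset.mem_filter, mem_indep] at hT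
    obtain ⟨⟨h1, h2⟩, h3⟩ := hT
    rw [Finset.mem_filter, mem_indep]
    refine ⟨⟨?_, ?_⟩, ?_⟩
    · intro a ha
      rw [Finset.mem_erase] at ha
      have := h1 ha.2
      rw [Finset.mem_insert] at this
      exact this.resolve_left ha.1
    · intro a ha b hb
      exact h2 a (Finset.mem_of_mem_erase ha) b (Finset.mem_of_mem_erase hb)
    · intro v hv
      exact h2 u h3 v (Finset.mem_of_mem_erase hv)
  · intro T hT
    rw [Finset.mem_filter, mem_indep] at hT
    have : u ∉ T := fun h => hu (hT.1.1 h)
    exact Finset.erase_insert this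
  · intro T hT
    rw [Finset.mem_filter] at hT
    exact Finset.insert_erase hT.2
  · intro T hT
    rw [Finset.mem_filter, mem_indep] at hT
    have huT : u ∉ T := fun h => hu (hT.1.1 h)
    congr 1
    ext a
    simp only [Finset.mem_sdiff, Finset.mem_insert, not_or]
    constructor
    · rintro ⟨h1, h2⟩
      exact ⟨Or.inr h1, fun h => hu (h ▸ h1), h2⟩
    · rintro ⟨h1 | h1, h2, h3⟩
      · exact absurd h1 h2
      · exact ⟨h1, h3⟩

/-- `P (S ∪ u) q ≥ (q - deg) P S q`, in the form that is needed. -/
theorem card_mul_le (h : ChromFam G P) (H : Finset V) (u : V) (hu : u ∉ H) (q : ℝ)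
    (hq : (H.card : ℝ) ≤ q) :
    ((H.filter (fun v => ¬ G.Adj u v)).card : ℝ) * P H q ≤ P (insert u H) q := by
  classical
  have hq0 : 0 ≤ q := le_trans (Nat.cast_nonneg _) hq
  set A := H.filter (fun v => G.Adj u v) with hA
  set W := H.filter (fun v => ¬ G.Adj u v) with hW
  have hcard : A.card + W.card = H.card := Finset.card_filter_add_card_filter_not _
  have hZ : ∀ T ∈ indep G H, 0 ≤ P (H \ T) (q - 1) := by
    intro T hT
    apply h.nonneg'
    have : ((H \ T).card : ℝ) ≤ H.card := by exact_mod_cast Finset.card_le_card Finset.sdiff_subset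
    linarith
  rw [h.classOf_insert H u hu q]
  -- split the sum over all independent sets
  have h1 : ∑ T ∈ indep G H, P (H \ T) (q - 1) ≤
      ∑ T ∈ (indep G H).filter (fun T => ∀ v ∈ T, ¬ G.Adj u v), P (H \ T) (q - 1)
      + ∑ a ∈ A, ∑ T ∈ (indep G H).filter (fun T => a ∈ T), P (H \ T) (q - 1) := by
    have h2 : ∑ a ∈ A, ∑ T ∈ (indep G H).filter (fun T => a ∈ T), P (H \ T) (q - 1)
        = ∑ T ∈ indep G H, ((T.filter (fun v => v ∈ A)).card : ℝ) * P (H \ T) (q - 1) := by
      simp_rw [Finset.sum_filter]
      rw [Finset.sum_comm]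
      apply Finset.sum_congr rfl
      intro T hT
      rw [← Finset.sum_filter, Finset.sum_const, nsmul_eq_mul]
      congr 3
      ext a
      simp only [Finset.mem_filter]
      tauto
    rw [h2, Finset.sum_filter, ← Finset.sum_add_distrib]
    apply Finset.sum_le_sum
    intro T hT
    have hZT := hZ T hT
    split_ifs with hc
    · have : 0 ≤ ((T.filter (fun v => v ∈ A)).card : ℝ) * P (H \ T) (q - 1) :=
        mul_nonneg (Nat.cast_nonneg _) hZT
      linarith
    · push Not at hc
      obtain ⟨v, hv, hadj⟩ := hc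
      have hmem : v ∈ T.filter (fun v => v ∈ A) := by
        rw [Finset.mem_filter, hA, Finset.mem_filter]
        exact ⟨hv, (mem_indep.1 hT).1 hv, hadj⟩
      have h3 : 1 ≤ (T.filter (fun v => v ∈ A)).card := Finset.card_pos.2 ⟨v, hmem⟩
      have h4 : (1 : ℝ) ≤ ((T.filter (fun v => v ∈ A)).card : ℝ) := by exact_mod_cast h3
      nlinarith
  have h5 : ∀ a ∈ A, q * ∑ T ∈ (indep G H).filter (fun T => a ∈ T), P (H \ T) (q - 1)
      = P H q := by
    intro a ha
    rw [h.classOf H a q]
    rw [hA, Finset.mem_filter] at ha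
    exact ha.1
  have h6 : q * ∑ a ∈ A, ∑ T ∈ (indep G H).filter (fun T => a ∈ T), P (H \ T) (q - 1)
      = A.card * P H q := by
    rw [Finset.mul_sum, Finset.sum_congr rfl h5, Finset.sum_const, nsmul_eq_mul]
  have h7 : q * P H q ≤
      q * ∑ T ∈ (indep G H).filter (fun T => ∀ v ∈ T, ¬ G.Adj u v), P (H \ T) (q - 1)
      + A.card * P H q := by
    rw [← h6, ← mul_add]
    apply mul_le_mul_of_nonneg_left _ hq0
    rw [h.classSum H q]
    exact h1
  have h8 : 0 ≤ P H q := (h.pos' H q hq).le
  have h9 : (A.card : ℝ) + W.card = H.card := by exact_mod_cast hcard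
  nlinarith

/-- **Key inequality**: the missing colour ratio decreases when a vertex is added. -/
theorem key (h : ChromFam G P) : ∀ (n : ℕ) (H : Finset V) (u : V) (q : ℝ), H.card = n → u ∉ H →
    (H.card : ℝ) + 1 ≤ q →
    P (insert u H) (q - 1) * P H q ≤ P (insert u H) q * P H (q - 1) := by
  classical
  intro n
  induction n using Nat.strong_induction_on with
  | _ n ih =>
    intro H u q hn hu hq
    -- the trivial case
    rcases H.eq_empty_or_nonempty with h0 | ⟨w0, hw0⟩
    · subst h0
      rw [h.classOf_insert ∅ u hu q, h.classOf_insert ∅ u hu (q - 1), h.empty, h.empty]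
      have h1 : (indep G (∅ : Finset V)).filter (fun T => ∀ v ∈ T, ¬ G.Adj u v) = {∅} := by
        ext T
        rw [Finset.mem_filter, mem_indep, Finset.mem_singleton]
        constructor
        · rintro ⟨⟨h1, _⟩, _⟩
          exact Finset.subset_empty.1 h1
        · rintro rfl
          simp
      rw [h1, Finset.sum_singleton, Finset.sum_singleton, Finset.sdiff_self, h.empty, h.empty]
      linarith
    -- monotonicity for smaller sets
    have hmono : ∀ (k : ℕ) (S : Finset V), S.card = k → ∀ H' : Finset V, S ⊆ H' → H'.card ≤ n →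
        ∀ q' : ℝ, (n : ℝ) ≤ q' → 
        P H' (q' - 1) * P (H' \ S) q' ≤ P H' q' * P (H' \ S) (q' - 1) := by
      intro k
      induction k with
      | zero =>
        intro S hS H' _ _ q' _
        rw [Finset.card_eq_zero] at hS
        subst hS
        rw [Finset.sdiff_empty]
        linarith
      | succ k ihk =>
        intro S hS H' hSH hH' q' hq'
        obtain ⟨t, ht⟩ : S.Nonempty := by
          rw [← Finset.card_pos, hS]; omega
        have ht' : t ∈ H' := hSH ht
        set H1 := H'.erase t with hH1
        have hcard1 : H1.card + 1 = H'.card := Finset.card_erase_add_one ht'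
        have hins : insert t H1 = H' := Finset.insert_erase ht'
        have hsd : H1 \ (S.erase t) = H' \ S := by
          ext a
          simp only [hH1, Finset.mem_sdiff, Finset.mem_erase, not_and, ne_eq]
          constructor
          · rintro ⟨⟨h1, h2⟩, h3⟩
            exact ⟨h2, h3 h1⟩
          · rintro ⟨h1, h2⟩
            have : a ≠ t := fun h => h2 (h ▸ ht)
            exact ⟨⟨this, h1⟩, fun _ => h2⟩
        have hsub : S.erase t ⊆ H1 := Finset.erase_subset_erase t hSH
        have hk : (S.erase t).card = k := by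
          rw [Finset.card_erase_of_mem ht, hS]; rfl
        have e1 := ihk (S.erase t) hk H1 hsub (by omega) q' hq'
        rw [hsd] at e1
        have hH1lt : H1.card < n := by omega
        have hle : ((H1.card : ℕ) : ℝ) + 1 ≤ q' := by
          have : ((H1.card + 1 : ℕ) : ℝ) ≤ n := by exact_mod_cast (by omega : H1.card + 1 ≤ n)
          push_cast at this
          linarith
        have e2 := ih H1.card hH1lt H1 t q' rfl (Finset.notMem_erase t H') hle
        rw [hins] at e2
        -- combine
        have p1 : 0 < P H1 q' := h.pos' H1 q' (by linarith)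
        have p2 : 0 < P H1 (q' - 1) := h.pos' H1 (q' - 1) (by linarith)
        have hsle : ((H' \ S).card : ℝ) + 1 ≤ q' := by
          have h3 : (H' \ S).card ≤ H1.card := by
            rw [← hsd]; exact Finset.card_le_card Finset.sdiff_subset
          have h4 : ((H' \ S).card : ℝ) ≤ H1.card := by exact_mod_cast h3
          linarith
        have p3 : 0 < P (H' \ S) q' := h.pos' _ q' (by linarith)
        have p4 : 0 < P (H' \ S) (q' - 1) := h.pos' _ (q' - 1) (by linarith)
        have p5 : 0 ≤ P H' q' := h.nonneg' _ q' (by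
          have : (H'.card : ℝ) ≤ n := by exact_mod_cast hH'
          linarith)
        have p6 : 0 ≤ P H' (q' - 1) := h.nonneg' _ (q' - 1) (by
          have : (H'.card : ℝ) ≤ n := by exact_mod_cast hH'
          linarith)
        -- e1 : P H1 (q'-1) * P D q' ≤ P H1 q' * P D (q'-1)
        -- e2 : P H' (q'-1) * P H1 q' ≤ P H' q' * P H1 (q'-1)
        have e3 : (P H' (q' - 1) * P (H' \ S) q') * (P H1 q' * P H1 (q' - 1)) ≤
            (P H' q' * P (H' \ S) (q' - 1)) * (P H1 q' * P H1 (q' - 1)) := by
          calc (P H' (q' - 1) * P (H' \ S) q') * (P H1 q' * P H1 (q' - 1))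
              = (P H' (q' - 1) * P H1 q') * (P H1 (q' - 1) * P (H' \ S) q') := by ring
            _ ≤ (P H' q' * P H1 (q' - 1)) * (P H1 q' * P (H' \ S) (q' - 1)) := by
                apply mul_le_mul e2 e1
                · exact mul_nonneg p2.le p3.le
                · exact mul_nonneg p5 p2.le
            _ = (P H' q' * P (H' \ S) (q' - 1)) * (P H1 q' * P H1 (q' - 1)) := by ring
        exact le_of_mul_le_mul_right e3 (mul_pos p1 p2)
    -- notation
    have hnR : (H.card : ℝ) = n := by exact_mod_cast hn
    have hq1 : (H.card : ℝ) ≤ q - 1 := by linarith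
    have hcpos : 1 ≤ H.card := Finset.card_pos.2 ⟨w0, hw0⟩
    have hcpos' : (1 : ℝ) ≤ H.card := by exact_mod_cast hcpos
    have hqpos : 0 < q := by linarith
    set p1 := P H q with hp1
    set p0 := P H (q - 1) with hp0
    set p00 := P H (q - 1 - 1) with hp00
    have p1pos : 0 < p1 := h.pos' H q (by linarith)
    have p0pos : 0 < p0 := h.pos' H (q - 1) hq1
    let Z : Finset V → ℝ := fun T => P (H \ T) (q - 1)
    let Z' : Finset V → ℝ := fun T => P (H \ T) (q - 1 - 1)
    let a : Finset V → ℝ := fun T => (q - 1) * Z' T * p1 - q * Z T * p0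
    have hZ : ∀ T, 0 < Z T := by
      intro T
      apply h.pos'
      have : ((H \ T).card : ℝ) ≤ H.card := by exact_mod_cast Finset.card_le_card Finset.sdiff_subset
      linarith
    -- class sums vanish
    have hvanish : ∀ w ∈ H, ∑ T ∈ (indep G H).filter (fun T => w ∈ T), a T = 0 := by
      intro w hw
      have e1 : q * ∑ T ∈ (indep G H).filter (fun T => w ∈ T), Z T = p1 :=
        (h.classOf H w q hw).symm
      have e2 : (q - 1) * ∑ T ∈ (indep G H).filter (fun T => w ∈ T), Z' T = p0 :=
        (h.classOf H w (q - 1) hw).symm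
      have e3 : ∑ T ∈ (indep G H).filter (fun T => w ∈ T), a T
          = p1 * ((q - 1) * ∑ T ∈ (indep G H).filter (fun T => w ∈ T), Z' T)
            - p0 * (q * ∑ T ∈ (indep G H).filter (fun T => w ∈ T), Z T) := by
        simp only [a, Finset.sum_sub_distrib, Finset.mul_sum]
        congr 1 <;> (apply Finset.sum_congr rfl; intro T _; ring)
      rw [e3, e1, e2]
      ring
    -- lower bound on `a`
    set Θ := q * p0 * p0 - (q - 1) * p00 * p1 with hΘ
    have hlow : ∀ T ∈ indep G H, -(Θ * Z T) ≤ p0 * a T := by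
      intro T hT
      have e1 := hmono T.card T rfl H (mem_indep.1 hT).1 (by omega) (q - 1) (by linarith)
      -- p00 * Z T ≤ p0 * Z' T
      have e2 : p00 * Z T ≤ p0 * Z' T := e1
      have e3 : 0 ≤ (q - 1) * p1 := mul_nonneg (by linarith) p1pos.le
      have e4 := mul_le_mul_of_nonneg_left e2 e3
      simp only [a, hΘ]
      nlinarith
    have hΘ0 : 0 ≤ Θ := by
      have e1 := hvanish w0 hw0
      have e2 : ∑ T ∈ (indep G H).filter (fun T => w0 ∈ T), -(Θ * Z T) ≤
          ∑ T ∈ (indep G H).filter (fun T => w0 ∈ T), p0 * a T := by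
        apply Finset.sum_le_sum
        intro T hT
        exact hlow T (Finset.mem_filter.1 hT).1
      rw [← Finset.mul_sum, e1, mul_zero, Finset.sum_neg_distrib, ← Finset.mul_sum] at e2
      have e3 : 0 < ∑ T ∈ (indep G H).filter (fun T => w0 ∈ T), Z T := by
        apply Finset.sum_pos (fun T _ => hZ T)
        refine ⟨{w0}, ?_⟩
        rw [Finset.mem_filter]
        exact ⟨singleton_mem_indep hw0, Finset.mem_singleton_self w0⟩
      by_contra hcon
      push Not at hcon
      nlinarith
    -- the main estimate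
    set W := H.filter (fun v => ¬ G.Adj u v) with hW
    have hsumW : ∀ F : Finset V → ℝ,
        ∑ w ∈ W, ∑ T ∈ (indep G H).filter (fun T => w ∈ T), F T
        = ∑ T ∈ indep G H, ((T.filter (fun v => v ∈ W)).card : ℝ) * F T := by
      intro F
      simp_rw [Finset.sum_filter]
      rw [Finset.sum_comm]
      apply Finset.sum_congr rfl
      intro T hT
      rw [← Finset.sum_filter, Finset.sum_const, nsmul_eq_mul]
      congr 3
      ext a
      simp only [Finset.mem_filter]
      tauto
    have hsumA : ∑ T ∈ indep G H, ((T.filter (fun v => v ∈ W)).card : ℝ) * a T = 0 := by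
      rw [← hsumW]
      apply Finset.sum_eq_zero
      intro w hw
      rw [hW, Finset.mem_filter] at hw
      exact hvanish w hw.1
    have hsumZ : q * ∑ T ∈ indep G H, ((T.filter (fun v => v ∈ W)).card : ℝ) * Z T
        = W.card * p1 := by
      rw [← hsumW, Finset.mul_sum]
      have : ∀ w ∈ W, q * ∑ T ∈ (indep G H).filter (fun T => w ∈ T), Z T = p1 := by
        intro w hw
        rw [hW, Finset.mem_filter] at hw
        exact (h.classOf H w q hw.1).symm
      rw [Finset.sum_congr rfl this, Finset.sum_const, nsmul_eq_mul]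
    -- weights
    let e : Finset V → ℝ := fun T =>
      (if ∀ v ∈ T, ¬ G.Adj u v then (1 : ℝ) else 0) - ((T.filter (fun v => v ∈ W)).card : ℝ)
    have hpt : ∀ T ∈ indep G H, e T * (p0 * a T) ≤ e T * (-(Θ * Z T)) := by
      intro T hT
      rcases T.eq_empty_or_nonempty with h0 | hne
      · subst h0
        have e1 : Z ∅ = p0 := by simp only [Z, Finset.sdiff_empty]; rfl
        have e2 : Z' ∅ = p00 := by simp only [Z', Finset.sdiff_empty]; rfl
        have e3 : p0 * a ∅ = -(Θ * Z ∅) := by
          simp only [a, e1, e2, hΘ]; ring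
        rw [e3]
      · have he : e T ≤ 0 := by
          simp only [e]
          split_ifs with hc
          · have : T.filter (fun v => v ∈ W) = T := by
              apply Finset.filter_true_of_mem
              intro v hv
              rw [hW, Finset.mem_filter]
              exact ⟨(mem_indep.1 hT).1 hv, hc v hv⟩
            rw [this]
            have : 1 ≤ T.card := Finset.card_pos.2 hne
            have : (1 : ℝ) ≤ T.card := by exact_mod_cast this
            linarith
          · have : (0 : ℝ) ≤ ((T.filter (fun v => v ∈ W)).card : ℝ) := Nat.cast_nonneg _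
            linarith
        exact mul_le_mul_of_nonpos_left (hlow T hT) he
    have hsum1 : ∑ T ∈ indep G H, e T * (p0 * a T) =
        p0 * ∑ T ∈ (indep G H).filter (fun T => ∀ v ∈ T, ¬ G.Adj u v), a T := by
      have e1 : ∑ T ∈ indep G H, e T * (p0 * a T) =
          p0 * ∑ T ∈ indep G H, (if ∀ v ∈ T, ¬ G.Adj u v then a T else 0)
          - p0 * ∑ T ∈ indep G H, ((T.filter (fun v => v ∈ W)).card : ℝ) * a T := by
        rw [Finset.mul_sum, Finset.mul_sum, ← Finset.sum_sub_distrib]
        apply Finset.sum_congr rfl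
        intro T _
        simp only [e]
        split_ifs <;> ring
      rw [e1, hsumA, mul_zero, sub_zero, Finset.sum_filter]
    have hsum2 : ∑ T ∈ indep G H, e T * (-(Θ * Z T)) =
        -(Θ * (∑ T ∈ (indep G H).filter (fun T => ∀ v ∈ T, ¬ G.Adj u v), Z T
          - ∑ T ∈ indep G H, ((T.filter (fun v => v ∈ W)).card : ℝ) * Z T)) := by
      rw [Finset.sum_filter, ← Finset.sum_sub_distrib, Finset.mul_sum, ← Finset.sum_neg_distrib]
      apply Finset.sum_congr rfl
      intro T _
      simp only [e]
      split_ifs <;> ring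
    have hle := Finset.sum_le_sum hpt
    rw [hsum1, hsum2] at hle
    -- P (insert u H) q ≥ |W| p1
    have hcm := h.card_mul_le H u hu q (by linarith)
    rw [← hW, ← hp1, h.classOf_insert H u hu q, ← hsumZ] at hcm
    have hge : ∑ T ∈ indep G H, ((T.filter (fun v => v ∈ W)).card : ℝ) * Z T ≤
        ∑ T ∈ (indep G H).filter (fun T => ∀ v ∈ T, ¬ G.Adj u v), Z T :=
      le_of_mul_le_mul_left hcm hqpos
    have hfin : p0 * ∑ T ∈ (indep G H).filter (fun T => ∀ v ∈ T, ¬ G.Adj u v), a T ≤ 0 := by
      refine le_trans hle ?_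
      have : 0 ≤ Θ * (∑ T ∈ (indep G H).filter (fun T => ∀ v ∈ T, ¬ G.Adj u v), Z T
          - ∑ T ∈ indep G H, ((T.filter (fun v => v ∈ W)).card : ℝ) * Z T) :=
        mul_nonneg hΘ0 (by linarith)
      linarith
    have hfin' : ∑ T ∈ (indep G H).filter (fun T => ∀ v ∈ T, ¬ G.Adj u v), a T ≤ 0 := by
      by_contra hcon
      push Not at hcon
      have := mul_pos p0pos hcon
      linarith
    -- conclude
    have hc1 : P (insert u H) (q - 1) =
        (q - 1) * ∑ T ∈ (indep G H).filter (fun T => ∀ v ∈ T, ¬ G.Adj u v), Z' T :=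
      h.classOf_insert H u hu (q - 1)
    have hc2 : P (insert u H) q =
        q * ∑ T ∈ (indep G H).filter (fun T => ∀ v ∈ T, ¬ G.Adj u v), Z T :=
      h.classOf_insert H u hu q
    have hc3 : ∑ T ∈ (indep G H).filter (fun T => ∀ v ∈ T, ¬ G.Adj u v), a T
        = P (insert u H) (q - 1) * p1 - P (insert u H) q * p0 := by
      rw [hc1, hc2]
      simp only [a, Finset.sum_sub_distrib, Finset.mul_sum, Finset.sum_mul]
    linarith

/-- Removing a set of vertices. -/
theorem key_sdiff (h : ChromFam G P) : ∀ (k : ℕ) (S : Finset V), S.card = k →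
    ∀ H : Finset V, S ⊆ H → ∀ q : ℝ, (H.card : ℝ) ≤ q →
    P H (q - 1) * P (H \ S) q ≤ P H q * P (H \ S) (q - 1) := by
  intro k
  induction k with
  | zero =>
    intro S hS H _ q _
    rw [Finset.card_eq_zero] at hS
    subst hS
    rw [Finset.sdiff_empty]
    linarith
  | succ k ihk =>
    intro S hS H hSH q hq
    obtain ⟨t, ht⟩ : S.Nonempty := by
      rw [← Finset.card_pos, hS]; omega
    have ht' : t ∈ H := hSH ht
    set H1 := H.erase t with hH1
    have hcard1 : H1.card + 1 = H.card := Finset.card_erase_add_one ht'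
    have hcard1' : (H1.card : ℝ) + 1 = H.card := by exact_mod_cast hcard1
    have hins : insert t H1 = H := Finset.insert_erase ht'
    have hsd : H1 \ (S.erase t) = H \ S := by
      ext a
      simp only [hH1, Finset.mem_sdiff, Finset.mem_erase, not_and, ne_eq]
      constructor
      · rintro ⟨⟨h1, h2⟩, h3⟩
        exact ⟨h2, h3 h1⟩
      · rintro ⟨h1, h2⟩
        have : a ≠ t := fun h => h2 (h ▸ ht)
        exact ⟨⟨this, h1⟩, fun _ => h2⟩
    have hsub : S.erase t ⊆ H1 := Finset.erase_subset_erase t hSH
    have hk : (S.erase t).card = k := by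
      rw [Finset.card_erase_of_mem ht, hS]; rfl
    have e1 := ihk (S.erase t) hk H1 hsub q (by linarith)
    rw [hsd] at e1
    have e2 := h.key H1.card H1 t q rfl (Finset.notMem_erase t H) (by linarith)
    rw [hins] at e2
    have p1 : 0 < P H1 q := h.pos' H1 q (by linarith)
    have p2 : 0 < P H1 (q - 1) := h.pos' H1 (q - 1) (by linarith)
    have hsle : ((H \ S).card : ℝ) + 1 ≤ q := by
      have h3 : (H \ S).card ≤ H1.card := by
        rw [← hsd]; exact Finset.card_le_card Finset.sdiff_subset
      have h4 : ((H \ S).card : ℝ) ≤ H1.card := by exact_mod_cast h3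
      linarith
    have p3 : 0 < P (H \ S) q := h.pos' _ q (by linarith)
    have p5 : 0 ≤ P H q := h.nonneg' _ q (by linarith)
    have e3 : (P H (q - 1) * P (H \ S) q) * (P H1 q * P H1 (q - 1)) ≤
        (P H q * P (H \ S) (q - 1)) * (P H1 q * P H1 (q - 1)) := by
      calc (P H (q - 1) * P (H \ S) q) * (P H1 q * P H1 (q - 1))
          = (P H (q - 1) * P H1 q) * (P H1 (q - 1) * P (H \ S) q) := by ring
        _ ≤ (P H q * P H1 (q - 1)) * (P H1 q * P (H \ S) (q - 1)) := by
            apply mul_le_mul e2 e1
            · exact mul_nonneg p2.le p3.le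
            · exact mul_nonneg p5 p2.le
        _ = (P H q * P (H \ S) (q - 1)) * (P H1 q * P H1 (q - 1)) := by ring
    exact le_of_mul_le_mul_right e3 (mul_pos p1 p2)

/-- **Log-concavity** of the family for `q ≥ |S|`. -/
theorem logConcave (h : ChromFam G P) (S : Finset V) (q : ℝ) (hq : (S.card : ℝ) ≤ q) :
    P S (q + 1) * P S (q - 1) ≤ P S q ^ 2 := by
  have e1 : P S (q + 1) = ∑ T ∈ indep G S, P (S \ T) q := by
    rw [h.classSum S (q + 1)]
    simp
  have e2 : P S q = ∑ T ∈ indep G S, P (S \ T) (q - 1) := h.classSum S q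
  calc P S (q + 1) * P S (q - 1)
      = ∑ T ∈ indep G S, P S (q - 1) * P (S \ T) q := by
        rw [e1, Finset.sum_mul]
        apply Finset.sum_congr rfl
        intro T _
        ring
    _ ≤ ∑ T ∈ indep G S, P S q * P (S \ T) (q - 1) := by
        apply Finset.sum_le_sum
        intro T hT
        exact h.key_sdiff T.card T rfl S (mem_indep.1 hT).1 q hq
    _ = P S q * P S q := by rw [← Finset.mul_sum, ← e2]
    _ = P S q ^ 2 := by ring

end ChromFam

end Pool.Agent.Lib.MP_2c0ab4_co
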