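import Mathlib
import Pool.Agent.Lib.MP_2c0ab4_co.Abstract

/-!
# Chromatic polynomials of all induced subgraphs form a `ChromFam`
-/

namespace Pool.Agent.Lib.MP_2c0ab4_co

open Finset Polynomial

variable {V : Type} [DecidableEq V]

/-- The number of proper colourings of `G[S]` with `k` colours, by the colour class recursion. -/
def cnt (G : SimpleGraph V) [DecidableRel G.Adj] : ℕ → Finset V → ℕ
  | 0, S => if S = ∅ then 1 else 0
  | k + 1, S => ∑ T ∈ indep G S, cnt G k (S \ T)

section cnt

variable (G : SimpleGraph V) [DecidableRel G.Adj]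

theorem indep_empty : indep G (∅ : Finset V) = {∅} := by
  ext T
  rw [mem_indep, Finset.mem_singleton]
  constructor
  · rintro ⟨h1, _⟩; exact Finset.subset_empty.1 h1
  · rintro rfl; simp

theorem cnt_empty (k : ℕ) : cnt G k ∅ = 1 := by
  induction k with
  | zero => simp [cnt]
  | succ k ih =>
    simp [cnt, indep_empty, ih]

/-- the recursion by the class of a given vertex -/
theorem cnt_class (k : ℕ) : ∀ (S : Finset V) (w : V), w ∈ S →
    cnt G (k + 1) S = (k + 1) * ∑ T ∈ (indep G S).filter (fun T => w ∈ T), cnt G k (S \ T) := by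
  induction k with
  | zero =>
    intro S w hw
    have h1 : cnt G (0 + 1) S = ∑ T ∈ indep G S, cnt G 0 (S \ T) := rfl
    rw [h1, zero_add, one_mul, Finset.sum_filter]
    apply Finset.sum_congr rfl
    intro T hT
    split_ifs with hc
    · rfl
    · have h2 : S \ T ≠ ∅ := by
        intro h
        have : w ∈ S \ T := by simp [hw, hc]
        rw [h] at this
        simp at this
      simp [cnt, h2]
  | succ k ih =>
    intro S w hw
    have h1 : cnt G (k + 1 + 1) S = ∑ T ∈ indep G S, cnt G (k + 1) (S \ T) := rfl
    rw [h1, ← Finset.sum_filter_add_sum_filter_not (indep G S) (fun T => w ∈ T)]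
    have h2 : ∑ T ∈ (indep G S).filter (fun T => ¬ w ∈ T), cnt G (k + 1) (S \ T)
        = (k + 1) * ∑ T ∈ (indep G S).filter (fun T => w ∈ T), cnt G (k + 1) (S \ T) := by
      have h3 : ∀ T ∈ (indep G S).filter (fun T => ¬ w ∈ T), cnt G (k + 1) (S \ T)
          = (k + 1) * ∑ T' ∈ (indep G (S \ T)).filter (fun T' => w ∈ T'),
              cnt G k ((S \ T) \ T') := by
        intro T hT
        rw [Finset.mem_filter] at hT
        exact ih (S \ T) w (by simp [hw, hT.2])
      rw [Finset.sum_congr rfl h3, ← Finset.mul_sum]
      congr 1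
      have h4 : ∀ T' ∈ (indep G S).filter (fun T => w ∈ T), cnt G (k + 1) (S \ T')
          = ∑ T ∈ indep G (S \ T'), cnt G k ((S \ T') \ T) := fun T' _ => rfl
      rw [Finset.sum_congr rfl h4]
      rw [Finset.sum_comm' (t' := (indep G S).filter (fun T => w ∈ T))
        (s' := fun T' => indep G (S \ T'))]
      · apply Finset.sum_congr rfl
        intro T' _
        apply Finset.sum_congr rfl
        intro T _
        rw [sdiff_right_comm]
      · intro T T'
        simp only [Finset.mem_filter, mem_indep, Finset.subset_sdiff]
        constructor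
        · rintro ⟨⟨⟨h1, h2⟩, h3⟩, ⟨⟨h4, h5⟩, h6⟩, h7⟩
          exact ⟨⟨⟨h1, h5.symm⟩, h2⟩, ⟨h4, h6⟩, h7⟩
        · rintro ⟨⟨⟨h1, h2⟩, h3⟩, ⟨h4, h5⟩, h6⟩
          refine ⟨⟨⟨h1, h3⟩, ?_⟩, ⟨⟨h4, h2.symm⟩, h5⟩, h6⟩
          intro hwT
          exact (Finset.disjoint_left.1 h2 hwT) h6
    rw [h2]
    ring

theorem cnt_zero_of_nonempty (S : Finset V) (w : V) (hw : w ∈ S) : cnt G 0 S = 0 := by
  have : S ≠ ∅ := Finset.ne_empty_of_mem hw
  simp [cnt, this]

/-- polynomials exist -/
theorem exists_poly : ∀ (n : ℕ) (S : Finset V), S.card = n →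
    ∃ p : ℝ[X], ∀ k : ℕ, p.eval (k : ℝ) = (cnt G k S : ℝ) := by
  intro n
  induction n using Nat.strong_induction_on with
  | _ n ih =>
    intro S hS
    rcases S.eq_empty_or_nonempty with h0 | ⟨w, hw⟩
    · subst h0
      exact ⟨1, fun k => by rw [cnt_empty]; simp⟩
    · have hex : ∀ T : Finset V, ∃ p : ℝ[X], T ∈ (indep G S).filter (fun T => w ∈ T) →
          ∀ k : ℕ, p.eval (k : ℝ) = (cnt G k (S \ T) : ℝ) := by
        intro T
        by_cases hT : T ∈ (indep G S).filter (fun T => w ∈ T)
        · obtain ⟨p, hp⟩ := ih (S \ T).card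
            (hS ▸ ChromFam.card_sdiff_lt hw (Finset.mem_filter.1 hT).2) (S \ T) rfl
          exact ⟨p, fun _ => hp⟩
        · exact ⟨0, fun h => absurd h hT⟩
      choose p hp using hex
      refine ⟨X * (∑ T ∈ (indep G S).filter (fun T => w ∈ T), p T).comp (X - 1), ?_⟩
      intro k
      rcases k with _ | k
      · rw [cnt_zero_of_nonempty G S w hw]; simp
      · rw [cnt_class G k S w hw]
        simp only [eval_mul, eval_X, eval_comp, eval_sub, eval_one, eval_finsetSum]
        push_cast
        congr 1
        apply Finset.sum_congr rfl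
        intro T hT
        have := hp T hT k
        rw [← this]
        congr 1
        ring

/-- The chromatic polynomial of `G[S]`. -/
noncomputable def chromPoly (S : Finset V) : ℝ[X] := (exists_poly G S.card S rfl).choose

theorem chromPoly_eval (S : Finset V) (k : ℕ) :
    (chromPoly G S).eval (k : ℝ) = (cnt G k S : ℝ) :=
  (exists_poly G S.card S rfl).choose_spec k

theorem poly_eq_of_nat {p r : ℝ[X]} (h : ∀ k : ℕ, p.eval ((k : ℝ) + 1) = r.eval ((k : ℝ) + 1)) :
    p = r := by
  apply Polynomial.eq_of_infinite_eval_eq
  have hinj : Function.Injective (fun k : ℕ => (k : ℝ) + 1) := by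
    intro a b hab
    simpa using hab
  exact (Set.infinite_range_of_injective hinj).mono (by rintro _ ⟨k, rfl⟩; exact h k)

theorem chromFam : ChromFam G (fun S q => (chromPoly G S).eval q) where
  empty q := by
    have : chromPoly G ∅ = 1 := by
      apply poly_eq_of_nat
      intro k
      have := chromPoly_eval G ∅ (k + 1)
      push_cast at this
      rw [this, cnt_empty]
      simp
    rw [this]; simp
  classOf S w q hw := by
    have : chromPoly G S =
        X * (∑ T ∈ (indep G S).filter (fun T => w ∈ T), chromPoly G (S \ T)).comp (X - 1) := by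
      apply poly_eq_of_nat
      intro k
      have h1 := chromPoly_eval G S (k + 1)
      push_cast at h1
      rw [h1, cnt_class G k S w hw]
      simp only [eval_mul, eval_X, eval_comp, eval_sub, eval_one, eval_finsetSum]
      push_cast
      congr 1
      apply Finset.sum_congr rfl
      intro T hT
      rw [← chromPoly_eval]
      congr 1
      ring
    rw [this]
    simp only [eval_mul, eval_X, eval_comp, eval_sub, eval_one, eval_finsetSum]
  classSum S q := by
    have : chromPoly G S = (∑ T ∈ indep G S, chromPoly G (S \ T)).comp (X - 1) := by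
      apply poly_eq_of_nat
      intro k
      have h1 := chromPoly_eval G S (k + 1)
      push_cast at h1
      rw [h1]
      have h2 : cnt G (k + 1) S = ∑ T ∈ indep G S, cnt G k (S \ T) := rfl
      rw [h2]
      simp only [eval_comp, eval_sub, eval_X, eval_one, eval_finsetSum]
      push_cast
      apply Finset.sum_congr rfl
      intro T hT
      rw [← chromPoly_eval]
      congr 1
      ring
    rw [this]
    simp only [eval_comp, eval_sub, eval_X, eval_one, eval_finsetSum]

end cnt

section colorings

variable [Fintype V] (G : SimpleGraph V) [DecidableRel G.Adj]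

/-- Proper colourings of `G[S]` with colours `1, …, k`, extended by `0` outside `S`. -/
def cols (k : ℕ) (S : Finset V) : Finset (V → ℕ) :=
  (Fintype.piFinset (fun v => if v ∈ S then Finset.Icc 1 k else {0})).filter
    (fun f => ∀ u ∈ S, ∀ v ∈ S, G.Adj u v → f u ≠ f v)

theorem mem_cols {k : ℕ} {S : Finset V} {f : V → ℕ} :
    f ∈ cols G k S ↔ (∀ v ∈ S, 1 ≤ f v ∧ f v ≤ k) ∧ (∀ v, v ∉ S → f v = 0) ∧
      ∀ u ∈ S, ∀ v ∈ S, G.Adj u v → f u ≠ f v := by
  rw [cols, Finset.mem_filter, Fintype.mem_piFinset]
  constructor
  · rintro ⟨h1, h2⟩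
    refine ⟨?_, ?_, h2⟩
    · intro v hv
      have := h1 v
      rw [if_pos hv, Finset.mem_Icc] at this
      exact this
    · intro v hv
      have := h1 v
      rw [if_neg hv, Finset.mem_singleton] at this
      exact this
  · rintro ⟨h1, h2, h3⟩
    refine ⟨?_, h3⟩
    intro v
    split_ifs with hv
    · rw [Finset.mem_Icc]; exact h1 v hv
    · rw [Finset.mem_singleton]; exact h2 v hv

theorem card_cols (k : ℕ) : ∀ S : Finset V, (cols G k S).card = cnt G k S := by
  induction k with
  | zero =>
    intro S
    rcases S.eq_empty_or_nonempty with h0 | ⟨w, hw⟩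
    · subst h0
      rw [cnt_empty, Finset.card_eq_one]
      refine ⟨fun _ => 0, ?_⟩
      ext f
      rw [mem_cols, Finset.mem_singleton]
      constructor
      · rintro ⟨_, h2, _⟩
        funext v
        exact h2 v (by simp)
      · rintro rfl
        simp
    · rw [cnt_zero_of_nonempty G S w hw, Finset.card_eq_zero]
      ext f
      rw [mem_cols]
      constructor
      · rintro ⟨h1, _⟩
        have := h1 w hw
        omega
      · intro h; simp at h
  | succ k ih =>
    intro S
    have h1 : cnt G (k + 1) S = ∑ T ∈ indep G S, cnt G k (S \ T) := rfl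
    rw [h1]
    have hmaps : ∀ f ∈ cols G (k + 1) S, S.filter (fun v => f v = k + 1) ∈ indep G S := by
      intro f hf
      rw [mem_cols] at hf
      rw [mem_indep]
      refine ⟨Finset.filter_subset _ _, ?_⟩
      intro u hu v hv hadj
      rw [Finset.mem_filter] at hu hv
      exact hf.2.2 u hu.1 v hv.1 hadj (by rw [hu.2, hv.2])
    rw [Finset.card_eq_sum_card_fiberwise hmaps]
    apply Finset.sum_congr rfl
    intro T hT
    rw [mem_indep] at hT
    rw [← ih (S \ T)]
    apply Finset.card_nbij' (fun f v => if v ∈ T then 0 else f v)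
      (fun g v => if v ∈ T then k + 1 else g v)
    · intro f hf
      simp only [Finset.coe_filter, Set.mem_ofPred_eq] at hf
      obtain ⟨hf, hfT⟩ := hf
      rw [mem_cols] at hf
      simp only [Finset.mem_coe]
      rw [mem_cols]
      refine ⟨?_, ?_, ?_⟩
      · intro v hv
        rw [Finset.mem_sdiff] at hv
        have h2 := hf.1 v hv.1
        have h3 : f v ≠ k + 1 := by
          intro h
          apply hv.2
          rw [← hfT, Finset.mem_filter]
          exact ⟨hv.1, h⟩
        simp only [if_neg hv.2]
        omega
      · intro v hv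
        rw [Finset.mem_sdiff, not_and_or, not_not] at hv
        by_cases hvT : v ∈ T
        · simp [hvT]
        · simp only [if_neg hvT]
          exact hf.2.1 v (hv.resolve_right hvT)
      · intro u hu v hv hadj
        rw [Finset.mem_sdiff] at hu hv
        simp only [if_neg hu.2, if_neg hv.2]
        exact hf.2.2 u hu.1 v hv.1 hadj
    · intro g hg
      simp only [Finset.mem_coe] at hg
      rw [mem_cols] at hg
      simp only [Finset.coe_filter, Set.mem_ofPred_eq]
      constructor
      · rw [mem_cols]
        refine ⟨?_, ?_, ?_⟩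
        · intro v hv
          by_cases hvT : v ∈ T
          · simp [hvT]
          · simp only [if_neg hvT]
            have := hg.1 v (by rw [Finset.mem_sdiff]; exact ⟨hv, hvT⟩)
            omega
        · intro v hv
          have hvT : v ∉ T := fun h => hv (hT.1 h)
          simp only [if_neg hvT]
          apply hg.2.1
          rw [Finset.mem_sdiff]
          tauto
        · intro u hu v hv hadj
          by_cases huT : u ∈ T
          · by_cases hvT : v ∈ T
            · exact absurd hadj (hT.2 u huT v hvT)
            · simp only [if_pos huT, if_neg hvT]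
              have := hg.1 v (by rw [Finset.mem_sdiff]; exact ⟨hv, hvT⟩)
              omega
          · by_cases hvT : v ∈ T
            · simp only [if_neg huT, if_pos hvT]
              have := hg.1 u (by rw [Finset.mem_sdiff]; exact ⟨hu, huT⟩)
              omega
            · simp only [if_neg huT, if_neg hvT]
              exact hg.2.2 u (by rw [Finset.mem_sdiff]; exact ⟨hu, huT⟩) v
                (by rw [Finset.mem_sdiff]; exact ⟨hv, hvT⟩) hadj
      · ext v
        rw [Finset.mem_filter]
        constructor
        · rintro ⟨hv, h2⟩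
          by_contra hvT
          simp only [if_neg hvT] at h2
          have := hg.1 v (by rw [Finset.mem_sdiff]; exact ⟨hv, hvT⟩)
          omega
        · intro hv
          exact ⟨hT.1 hv, by simp [hv]⟩
    · intro f hf
      simp only [Finset.coe_filter, Set.mem_ofPred_eq] at hf
      obtain ⟨hf, hfT⟩ := hf
      funext v
      by_cases hvT : v ∈ T
      · simp only [if_pos hvT]
        rw [← hfT, Finset.mem_filter] at hvT
        exact hvT.2.symm
      · simp only [if_neg hvT]
    · intro g hg
      simp only [Finset.mem_coe] at hg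
      rw [mem_cols] at hg
      funext v
      by_cases hvT : v ∈ T
      · simp only [if_pos hvT]
        symm
        apply hg.2.1
        rw [Finset.mem_sdiff]
        tauto
      · simp only [if_neg hvT]

/-- `cnt` on the whole vertex set counts proper colourings. -/
theorem card_coloring (k : ℕ) : Nat.card (G.Coloring (Fin k)) = cnt G k Finset.univ := by
  rw [← card_cols, ← Fintype.card_coe, ← Nat.card_eq_fintype_card]
  apply Nat.card_congr
  refine
    { toFun := fun c => ⟨fun v => (c v : ℕ) + 1, ?_⟩
      invFun := fun f => SimpleGraph.Coloring.mk (fun v => ⟨f.1 v - 1, ?_⟩) ?_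
      left_inv := ?_
      right_inv := ?_ }
  · rw [mem_cols]
    refine ⟨?_, ?_, ?_⟩
    · intro v _
      have := (c v).isLt
      omega
    · intro v hv
      exact absurd (Finset.mem_univ v) hv
    · intro u _ v _ hadj h
      have h2 := c.valid hadj
      apply h2
      apply Fin.ext
      omega
  · have h1 := ((mem_cols G).1 f.2).1 v (Finset.mem_univ v)
    omega
  · intro u v hadj h
    have h1 := ((mem_cols G).1 f.2).1 v (Finset.mem_univ v)
    have h2 := ((mem_cols G).1 f.2).1 u (Finset.mem_univ u)
    have h3 := ((mem_cols G).1 f.2).2.2 u (Finset.mem_univ u) v (Finset.mem_univ v) hadj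
    have h4 := congrArg Fin.val h
    simp only at h4
    omega
  · intro c
    apply RelHom.ext
    intro v
    apply Fin.ext
    change (c v : ℕ) + 1 - 1 = (c v : ℕ)
    omega
  · intro f
    apply Subtype.ext
    funext v
    have h1 := ((mem_cols G).1 f.2).1 v (Finset.mem_univ v)
    simp only [SimpleGraph.Coloring.mk]
    change f.1 v - 1 + 1 = f.1 v
    omega

/-- **Log-concavity of the chromatic polynomial** for arguments at least the order. -/
theorem log_concave_chromatic (p : ℝ[X])
    (hp : ∀ k : ℕ, p.eval (k : ℝ) = (Nat.card (G.Coloring (Fin k)) : ℝ)) (x : ℝ)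
    (hx : (Fintype.card V : ℝ) ≤ x) :
    p.eval (x + 1) * p.eval (x - 1) ≤ p.eval x ^ 2 := by
  have hpe : p = chromPoly G Finset.univ := by
    apply poly_eq_of_nat
    intro k
    have h1 := hp (k + 1)
    have h2 := chromPoly_eval G Finset.univ (k + 1)
    push_cast at h1 h2
    rw [h1, h2, card_coloring]
  rw [hpe]
  exact (chromFam G).logConcave Finset.univ x (by rwa [Finset.card_univ])

end colorings

end Pool.Agent.Lib.MP_2c0ab4_co
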